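import Pool.Agent.Y272.GA.Frt

/-!
# Fubini over the first coordinate (helper362)
-/

set_option autoImplicit false

namespace Pool.Agent.Y362.GA

open MeasureTheory Metric Set

/-- the first coordinate and the others -/
noncomputable def eqv (d : ℕ) : (Fin (d + 1) → ℂ) ≃ᵐ ℂ × (Fin d → ℂ) :=
  MeasurableEquiv.piFinSuccAbove (fun _ => ℂ) 0

lemma eqv_mp (d : ℕ) : MeasurePreserving (eqv d) volume volume :=
  volume_preserving_piFinSuccAbove (fun _ : Fin (d + 1) => ℂ) 0

lemma eqv_apply (d : ℕ) (x : Fin (d + 1) → ℂ) : eqv d x = (x 0, fun j => x j.succ) := by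
  unfold eqv
  rfl

lemma eqv_symm_apply (d : ℕ) (x : ℂ) (y : Fin d → ℂ) : (eqv d).symm (x, y) = Fin.cons x y := by
  rw [MeasurableEquiv.symm_apply_eq, eqv_apply]
  simp

lemma ball_eq (d : ℕ) (c : Fin (d + 1) → ℂ) (ρ : ℝ) (hρ : 0 ≤ ρ) :
    volume (closedBall c ρ) =
      volume (closedBall (0 : ℂ) ρ) * volume (closedBall (fun j : Fin d => c j.succ) ρ) := by
  rw [closedBall_pi _ hρ, volume_pi_pi, Fin.prod_univ_succ, closedBall_pi _ hρ, volume_pi_pi]
  congr 1
  have h := measure_preimage_add (volume : Measure ℂ) (c 0) (closedBall (c 0) ρ)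
  rw [← h]
  congr 1
  ext z
  simp [dist_eq_norm]

/-- Fubini -/
theorem fub (d : ℕ) (S : Set (Fin (d + 1) → ℂ)) (c : Fin (d + 1) → ℂ) (ρ : ℝ) (M : ENNReal)
    (hρ : 0 ≤ ρ) (hS : MeasurableSet S) (hSc : S ⊆ closedBall c ρ)
    (hM : ∀ b ∈ closedBall c ρ, b 0 = c 0 →
      volume {t : ℂ | b + (Pi.single 0 t : Fin (d + 1) → ℂ) ∈ S} ≤ M) :
    volume S ≤ M * volume (closedBall (fun j : Fin d => c j.succ) ρ) := by
  have h1 : volume S = volume ((eqv d).symm ⁻¹' S) :=
    ((eqv_mp d).symm (eqv d)).measure_preimage_equiv S |>.symm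
  have hS' : MeasurableSet ((eqv d).symm ⁻¹' S) := (eqv d).symm.measurable hS
  rw [h1, Measure.volume_eq_prod, Measure.prod_apply_symm hS']
  have h2 : ∀ y : Fin d → ℂ, volume ((fun x : ℂ => (x, y)) ⁻¹' ((eqv d).symm ⁻¹' S)) ≤
      (closedBall (fun j : Fin d => c j.succ) ρ).indicator (fun _ => M) y := by
    intro y
    by_cases hy : y ∈ closedBall (fun j : Fin d => c j.succ) ρ
    · rw [indicator_of_mem hy]
      have hb : (Fin.cons (c 0) y : Fin (d + 1) → ℂ) ∈ closedBall c ρ := by
        rw [mem_closedBall, dist_pi_le_iff hρ]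
        rw [mem_closedBall, dist_pi_le_iff hρ] at hy
        intro i
        refine Fin.cases ?_ (fun j => ?_) i
        · rw [Fin.cons_zero, dist_self]
          exact hρ
        · rw [Fin.cons_succ]
          exact hy j
      refine le_trans (le_of_eq ?_) (hM _ hb (Fin.cons_zero _ _))
      have h3 := measure_preimage_add (volume : Measure ℂ) (c 0)
        ((fun x : ℂ => (x, y)) ⁻¹' ((eqv d).symm ⁻¹' S))
      rw [← h3]
      congr 1
      ext t
      simp only [mem_preimage, mem_setOf_eq, eqv_symm_apply]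
      have h4 : (Fin.cons (c 0 + t) y : Fin (d + 1) → ℂ) = Fin.cons (c 0) y + Pi.single 0 t := by
        funext i
        refine Fin.cases ?_ (fun j => ?_) i
        · rw [Fin.cons_zero, Pi.add_apply, Fin.cons_zero, Pi.single_eq_same]
        · rw [Fin.cons_succ, Pi.add_apply, Fin.cons_succ, Pi.single_eq_of_ne (Fin.succ_ne_zero j),
            add_zero]
      rw [h4]
    · rw [indicator_of_notMem hy, nonpos_iff_eq_zero]
      have h3 : (fun x : ℂ => (x, y)) ⁻¹' ((eqv d).symm ⁻¹' S) = ∅ := by
        ext x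
        simp only [mem_preimage, eqv_symm_apply, mem_empty_iff_false, iff_false]
        intro hx
        apply hy
        have h4 := hSc hx
        rw [mem_closedBall, dist_pi_le_iff hρ] at h4 ⊢
        intro j
        have h5 := h4 j.succ
        rw [Fin.cons_succ] at h5
        exact h5
      rw [h3, measure_empty]
  refine (lintegral_mono h2).trans (le_of_eq ?_)
  rw [lintegral_indicator measurableSet_closedBall, setLIntegral_const]

/-- Integration over the first coordinate. -/
theorem t : Pool.Agent.Y272.GA.S_FUB := by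
  intro d c ρ S M hρ hS hSc hM
  have h1 := fub d S c ρ M hρ.le hS hSc hM
  rw [ball_eq d c ρ hρ.le]
  calc volume S * volume (closedBall (0 : ℂ) ρ)
      ≤ M * volume (closedBall (fun j : Fin d => c j.succ) ρ) * volume (closedBall (0 : ℂ) ρ) :=
        mul_le_mul_left h1 _
    _ = M * (volume (closedBall (0 : ℂ) ρ) *
          volume (closedBall (fun j : Fin d => c j.succ) ρ)) := by ring

end Pool.Agent.Y362.GA
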